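import Mathlib
import Pool.Agent.Q35.Agler.Abs

/-!
# MP_dfd7ce_an: a non-split rational inner function on the bidisk, an Agler decomposition, and a
compressed shift whose numerical range is not open
-/

namespace Pool.Agent.Results.MP_dfd7ce_an.NotOpen

open scoped ComplexConjugate Topology InnerProductSpace
open Filter Pool.Agent.Q35.Agler

/-- The Hardy space `H²(𝔻²)`: the function `∑ a_{kl} z₁^k z₂^l` is given by its square summable
family of coefficients `a : ℕ × ℕ → ℂ`, with the norm of `ℓ²(ℕ × ℕ)`. -/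
abbrev H2 : Type := lp (fun _ : ℕ × ℕ => ℂ) 2

/-- The open bidisk. -/
def bidisk : Set (ℂ × ℂ) := {z | ‖z.1‖ < 1 ∧ ‖z.2‖ < 1}

/-- The value at `z` of the function with coefficients `a`. -/
noncomputable def ev (a : H2) (z : ℂ × ℂ) : ℂ := ∑' i : ℕ × ℕ, a i * (z.1 ^ i.1 * z.2 ^ i.2)

/-! ### Shifts -/

lemma two_pos' : 0 < (2 : ENNReal).toReal := by norm_num

lemma summable_sq (a : H2) : Summable fun i => ‖a i‖ ^ (2 : ENNReal).toReal :=
  (memℓp_gen_iff two_pos').mp (lp.memℓp a)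

lemma memlp_of {f : ℕ × ℕ → ℂ} (h : Summable fun i => ‖f i‖ ^ (2 : ENNReal).toReal) :
    Memℓp f 2 := (memℓp_gen_iff two_pos').mpr h

lemma support_extend (j : ℕ × ℕ → ℕ × ℕ) (a : ℕ × ℕ → ℂ) (F : ℂ → ℕ × ℕ → ℂ)
    (hF : ∀ i, F 0 i = 0) :
    Function.support (fun i => F (Function.extend j a 0 i) i) ⊆ Set.range j := by
  intro i hi
  by_contra hcon
  apply hi
  have : Function.extend j a 0 i = 0 := by
    rw [Function.extend_apply' _ _ _ (by simpa [Set.mem_range] using hcon)]; rfl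
  simp only [this, hF]

lemma norm_extend (j : ℕ × ℕ → ℕ × ℕ) (hj : Function.Injective j) (a : H2) :
    Summable (fun i => ‖Function.extend j (a : ℕ × ℕ → ℂ) 0 i‖ ^ (2 : ENNReal).toReal) := by
  rw [← hj.summable_iff]
  · have : (fun i => ‖Function.extend j (a : ℕ × ℕ → ℂ) 0 i‖ ^ (2 : ENNReal).toReal) ∘ j =
        fun i => ‖a i‖ ^ (2 : ENNReal).toReal := by
      funext i
      simp only [Function.comp_apply, hj.extend_apply]
    rw [this]
    exact summable_sq a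
  · intro i hi
    rw [Function.extend_apply' _ _ _ (by simpa [Set.mem_range] using hi)]
    simp

/-- The shift along an injective map of indices. -/
noncomputable def shiftLin (j : ℕ × ℕ → ℕ × ℕ) (hj : Function.Injective j) : H2 →ₗ[ℂ] H2 where
  toFun a := ⟨Function.extend j (a : ℕ × ℕ → ℂ) 0, memlp_of (norm_extend j hj a)⟩
  map_add' a b := by
    ext i
    change Function.extend j (fun k => a k + b k) 0 i =
      Function.extend j (a : ℕ × ℕ → ℂ) 0 i + Function.extend j (b : ℕ × ℕ → ℂ) 0 i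
    by_cases hi : ∃ k, j k = i
    · obtain ⟨k, rfl⟩ := hi
      rw [hj.extend_apply, hj.extend_apply, hj.extend_apply]
    · rw [Function.extend_apply' _ _ _ hi, Function.extend_apply' _ _ _ hi,
        Function.extend_apply' _ _ _ hi]
      simp
  map_smul' c a := by
    ext i
    change Function.extend j (fun k => c * a k) 0 i =
      c * Function.extend j (a : ℕ × ℕ → ℂ) 0 i
    by_cases hi : ∃ k, j k = i
    · obtain ⟨k, rfl⟩ := hi
      rw [hj.extend_apply, hj.extend_apply]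
    · rw [Function.extend_apply' _ _ _ hi, Function.extend_apply' _ _ _ hi]
      simp

lemma inner_shiftLin (j : ℕ × ℕ → ℕ × ℕ) (hj : Function.Injective j) (a b : H2) :
    inner ℂ (shiftLin j hj a) (shiftLin j hj b) = inner ℂ a b := by
  rw [lp.inner_eq_tsum, lp.inner_eq_tsum]
  have h1 := hj.tsum_eq (f := fun i => inner ℂ ((shiftLin j hj a : H2) i) ((shiftLin j hj b : H2) i))
    (support_extend j a (fun x i => inner ℂ x ((shiftLin j hj b : H2) i)) (fun i => by simp))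
  rw [← h1]
  refine tsum_congr fun i => ?_
  change inner ℂ (Function.extend j (a : ℕ × ℕ → ℂ) 0 (j i))
    (Function.extend j (b : ℕ × ℕ → ℂ) 0 (j i)) = _
  rw [hj.extend_apply, hj.extend_apply]

lemma norm_shiftLin (j : ℕ × ℕ → ℕ × ℕ) (hj : Function.Injective j) (a : H2) :
    ‖shiftLin j hj a‖ = ‖a‖ := by
  have := inner_shiftLin j hj a a
  rw [inner_self_eq_norm_sq_to_K, inner_self_eq_norm_sq_to_K] at this
  have h2 : ‖shiftLin j hj a‖ ^ 2 = ‖a‖ ^ 2 := by exact_mod_cast this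
  exact (sq_eq_sq₀ (norm_nonneg _) (norm_nonneg _)).mp h2

/-- The shift as a continuous linear map. -/
noncomputable def shift (j : ℕ × ℕ → ℕ × ℕ) (hj : Function.Injective j) : H2 →L[ℂ] H2 :=
  (shiftLin j hj).mkContinuous 1 fun a => by rw [norm_shiftLin, one_mul]

lemma shift_apply (j : ℕ × ℕ → ℕ × ℕ) (hj : Function.Injective j) (a : H2) (i : ℕ × ℕ) :
    (shift j hj a : H2) (j i) = a i := by
  change Function.extend j (a : ℕ × ℕ → ℂ) 0 (j i) = _
  rw [hj.extend_apply]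

lemma shift_apply' (j : ℕ × ℕ → ℕ × ℕ) (hj : Function.Injective j) (a : H2) (i : ℕ × ℕ)
    (hi : ¬ ∃ k, j k = i) : (shift j hj a : H2) i = 0 := by
  change Function.extend j (a : ℕ × ℕ → ℂ) 0 i = _
  rw [Function.extend_apply' _ _ _ hi]; rfl

lemma inj1 : Function.Injective fun i : ℕ × ℕ => (i.1 + 1, i.2) := by
  intro a b h
  simp only [Prod.mk.injEq, add_left_inj] at h
  exact Prod.ext h.1 h.2

lemma inj2 : Function.Injective fun i : ℕ × ℕ => (i.1, i.2 + 1) := by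
  intro a b h
  simp only [Prod.mk.injEq, add_left_inj] at h
  exact Prod.ext h.1 h.2

/-- `S_{z₁}`, multiplication by `z₁` on `H²(𝔻²)`: the coefficient of index `(k + 1, l)` of the image
is the coefficient of index `(k, l)`, and those of index `(0, l)` are zero. -/
noncomputable def Sz1 : H2 →L[ℂ] H2 := shift (fun i => (i.1 + 1, i.2)) inj1

/-- `S_{z₂}`, multiplication by `z₂` on `H²(𝔻²)`. -/
noncomputable def Sz2 : H2 →L[ℂ] H2 := shift (fun i => (i.1, i.2 + 1)) inj2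

/-- The backward shift in the first variable. -/
noncomputable def backLin : H2 →ₗ[ℂ] H2 where
  toFun a := ⟨fun i => a (i.1 + 1, i.2), memlp_of ((summable_sq a).comp_injective inj1)⟩
  map_add' a b := by ext i; rfl
  map_smul' c a := by ext i; rfl

lemma inner_back (a b : H2) : inner ℂ (Sz1 a) b = inner ℂ a (backLin b) := by
  rw [lp.inner_eq_tsum, lp.inner_eq_tsum]
  have h1 := inj1.tsum_eq (f := fun i => inner ℂ ((Sz1 a : H2) i) (b i))
    (support_extend _ a (fun x i => inner ℂ x (b i)) (fun i => by simp))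
  rw [← h1]
  refine tsum_congr fun i => ?_
  rw [show (Sz1 a : H2) (i.1 + 1, i.2) = a i from shift_apply _ inj1 a i]
  rfl

lemma norm_back (a : H2) : ‖backLin a‖ ≤ ‖a‖ := by
  by_cases h0 : ‖backLin a‖ = 0
  · rw [h0]; exact norm_nonneg _
  have h2 : inner ℂ (backLin a) (backLin a) = inner ℂ (Sz1 (backLin a)) a := (inner_back _ _).symm
  rw [inner_self_eq_norm_sq_to_K] at h2
  have h3 : ‖backLin a‖ ^ 2 = ‖inner ℂ (Sz1 (backLin a)) a‖ := by rw [← h2]; simp
  have h4 : ‖inner ℂ (Sz1 (backLin a)) a‖ ≤ ‖backLin a‖ * ‖a‖ := by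
    refine (norm_inner_le_norm _ _).trans (le_of_eq ?_)
    rw [show ‖Sz1 (backLin a)‖ = ‖backLin a‖ from norm_shiftLin _ inj1 _]
  have h5 : 0 < ‖backLin a‖ := lt_of_le_of_ne (norm_nonneg _) (Ne.symm h0)
  nlinarith

/-- The backward shift as a continuous linear map. -/
noncomputable def back : H2 →L[ℂ] H2 := backLin.mkContinuous 1 fun a => by
  rw [one_mul]; exact norm_back a

lemma Sz1_zero (x : H2) (l : ℕ) : (Sz1 x : H2) (0, l) = 0 :=
  shift_apply' _ inj1 x _ (by rintro ⟨k, hk⟩; simp at hk)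

lemma Sz1_succ (x : H2) (k l : ℕ) : (Sz1 x : H2) (k + 1, l) = x (k, l) :=
  shift_apply _ inj1 x (k, l)

lemma Sz2_zero (x : H2) (k : ℕ) : (Sz2 x : H2) (k, 0) = 0 :=
  shift_apply' _ inj2 x _ (by rintro ⟨k, hk⟩; simp at hk)

lemma Sz2_succ (x : H2) (k l : ℕ) : (Sz2 x : H2) (k, l + 1) = x (k, l) :=
  shift_apply _ inj2 x (k, l)

lemma back_apply (x : H2) (k l : ℕ) : (back x : H2) (k, l) = x (k + 1, l) := rfl

lemma data : Data Sz1 Sz2 back where
  isoA := inner_shiftLin _ inj1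
  isoB := inner_shiftLin _ inj2
  comm x := by
    ext ⟨k, l⟩
    rcases k with _ | k
    · rw [Sz1_zero]
      rcases l with _ | l
      · rw [Sz2_zero]
      · rw [Sz2_succ, Sz1_zero]
    · rw [Sz1_succ]
      rcases l with _ | l
      · rw [Sz2_zero, Sz2_zero]
      · rw [Sz2_succ, Sz2_succ, Sz1_succ]
  adj := inner_back
  dcomm x := by
    ext ⟨k, l⟩
    rw [back_apply]
    rcases l with _ | l
    · rw [Sz2_zero, Sz2_zero]
    · rw [Sz2_succ, Sz2_succ, back_apply]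

/-! ### Evaluation -/

lemma summable_mon {z : ℂ × ℂ} (hz : z ∈ bidisk) :
    Summable fun i : ℕ × ℕ => ‖conj (z.1 ^ i.1 * z.2 ^ i.2)‖ ^ (2 : ENNReal).toReal := by
  have h1 : Summable fun k : ℕ => (‖z.1‖ ^ 2) ^ k :=
    summable_geometric_of_lt_one (by positivity) (by
      have := hz.1
      exact pow_lt_one₀ (norm_nonneg _) this two_ne_zero)
  have h2 : Summable fun k : ℕ => (‖z.2‖ ^ 2) ^ k :=
    summable_geometric_of_lt_one (by positivity) (by
      have := hz.2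
      exact pow_lt_one₀ (norm_nonneg _) this two_ne_zero)
  have h3 := h1.mul_of_nonneg h2 (fun _ => by positivity) (fun _ => by positivity)
  refine h3.congr fun i => ?_
  rw [RCLike.norm_conj, norm_mul, norm_pow, norm_pow, ENNReal.toReal_ofNat, Real.rpow_two]
  ring

/-- The reproducing kernel. -/
noncomputable def ker {z : ℂ × ℂ} (hz : z ∈ bidisk) : H2 :=
  ⟨fun i => conj (z.1 ^ i.1 * z.2 ^ i.2), memlp_of (summable_mon hz)⟩

lemma ev_eq {z : ℂ × ℂ} (hz : z ∈ bidisk) (a : H2) : ev a z = inner ℂ (ker hz) a := by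
  rw [ev, lp.inner_eq_tsum]
  refine tsum_congr fun i => ?_
  change _ = inner ℂ (conj (z.1 ^ i.1 * z.2 ^ i.2)) (a i)
  rw [RCLike.inner_apply, RingHomCompTriple.comp_apply, RingHom.id_apply]

lemma summable_ev {z : ℂ × ℂ} (hz : z ∈ bidisk) (a : H2) :
    Summable fun i : ℕ × ℕ => a i * (z.1 ^ i.1 * z.2 ^ i.2) := by
  refine (lp.summable_inner (ker hz) a).congr fun i => ?_
  change inner ℂ (conj (z.1 ^ i.1 * z.2 ^ i.2)) (a i) = _
  rw [RCLike.inner_apply, RingHomCompTriple.comp_apply, RingHom.id_apply]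

lemma ev_add {z : ℂ × ℂ} (hz : z ∈ bidisk) (a b : H2) : ev (a + b) z = ev a z + ev b z := by
  rw [ev_eq hz, ev_eq hz, ev_eq hz, inner_add_right]

lemma ev_sub {z : ℂ × ℂ} (hz : z ∈ bidisk) (a b : H2) : ev (a - b) z = ev a z - ev b z := by
  rw [ev_eq hz, ev_eq hz, ev_eq hz, inner_sub_right]

lemma ev_smul {z : ℂ × ℂ} (hz : z ∈ bidisk) (c : ℂ) (a : H2) : ev (c • a) z = c * ev a z := by
  rw [ev_eq hz, ev_eq hz, inner_smul_right]

lemma ev_zero {z : ℂ × ℂ} (hz : z ∈ bidisk) : ev (0 : H2) z = 0 := by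
  rw [ev_eq hz, inner_zero_right]

/-- `S_{z₁}` is multiplication by `z₁`. -/
lemma ev_Sz1 (a : H2) (z : ℂ × ℂ) : ev (Sz1 a) z = z.1 * ev a z := by
  rw [ev, ev, ← tsum_mul_left]
  have h1 := inj1.tsum_eq (f := fun i : ℕ × ℕ => (Sz1 a : H2) i * (z.1 ^ i.1 * z.2 ^ i.2))
    (support_extend _ a (fun x i => x * (z.1 ^ i.1 * z.2 ^ i.2)) (fun i => by simp))
  refine h1.symm.trans (tsum_congr fun i => ?_)
  rw [show (Sz1 a : H2) (i.1 + 1, i.2) = a i from shift_apply _ inj1 a i]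
  rw [pow_succ]; ring

/-- `S_{z₂}` is multiplication by `z₂`. -/
lemma ev_Sz2 (a : H2) (z : ℂ × ℂ) : ev (Sz2 a) z = z.2 * ev a z := by
  rw [ev, ev, ← tsum_mul_left]
  have h1 := inj2.tsum_eq (f := fun i : ℕ × ℕ => (Sz2 a : H2) i * (z.1 ^ i.1 * z.2 ^ i.2))
    (support_extend _ a (fun x i => x * (z.1 ^ i.1 * z.2 ^ i.2)) (fun i => by simp))
  refine h1.symm.trans (tsum_congr fun i => ?_)
  rw [show (Sz2 a : H2) (i.1, i.2 + 1) = a i from shift_apply _ inj2 a i]
  rw [pow_succ]; ring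

/-- Uniqueness of power series in one variable with bounded coefficients. -/
lemma uniq1 (c : ℕ → ℂ) (C : ℝ) (hC : ∀ n, ‖c n‖ ≤ C)
    (h0 : ∀ t : ℝ, 0 < t → t < 1 → ∑' n, c n * (t : ℂ) ^ n = 0) : ∀ n, c n = 0 := by
  have hC0 : 0 ≤ C := (norm_nonneg _).trans (hC 0)
  intro m
  induction m using Nat.strong_induction_on with
  | _ m ih =>
    have key : ∀ t : ℝ, 0 < t → t < 1 → ‖c m‖ ≤ C * (t * (1 - t)⁻¹) := by
      intro t ht0 ht1
      have hg : Summable fun n : ℕ => t ^ n := summable_geometric_of_lt_one ht0.le ht1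
      have hs : Summable fun n => c n * (t : ℂ) ^ n := by
        refine Summable.of_norm_bounded (hg.mul_left C) fun n => ?_
        rw [norm_mul, norm_pow, Complex.norm_real, Real.norm_of_nonneg ht0.le]
        exact mul_le_mul_of_nonneg_right (hC n) (by positivity)
      have h1 := hs.sum_add_tsum_nat_add m
      rw [h0 t ht0 ht1] at h1
      rw [Finset.sum_eq_zero (fun i hi => by rw [ih i (Finset.mem_range.mp hi), zero_mul]),
        zero_add] at h1
      have hs2 : Summable fun n => c (n + m) * (t : ℂ) ^ n := by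
        refine Summable.of_norm_bounded (hg.mul_left C) fun n => ?_
        rw [norm_mul, norm_pow, Complex.norm_real, Real.norm_of_nonneg ht0.le]
        exact mul_le_mul_of_nonneg_right (hC _) (by positivity)
      have h2 : ∑' n, c (n + m) * (t : ℂ) ^ n = 0 := by
        have h3 : (t : ℂ) ^ m * ∑' n, c (n + m) * (t : ℂ) ^ n = 0 := by
          rw [← tsum_mul_left, ← h1]
          refine tsum_congr fun n => ?_
          rw [pow_add]; ring
        refine (mul_eq_zero.mp h3).resolve_left (pow_ne_zero _ ?_)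
        exact_mod_cast ht0.ne'
      rw [hs2.tsum_eq_zero_add] at h2
      have h4 : c m = - ∑' n, c (n + 1 + m) * (t : ℂ) ^ (n + 1) := by
        rw [pow_zero, mul_one, zero_add] at h2
        linear_combination h2
      rw [h4, norm_neg]
      have h5 : Summable fun n : ℕ => C * t * t ^ n := hg.mul_left _
      refine (tsum_of_norm_bounded h5.hasSum fun n => ?_).trans (le_of_eq ?_)
      · rw [norm_mul, norm_pow, Complex.norm_real, Real.norm_of_nonneg ht0.le]
        calc ‖c (n + 1 + m)‖ * t ^ (n + 1) ≤ C * t ^ (n + 1) :=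
              mul_le_mul_of_nonneg_right (hC _) (by positivity)
          _ = C * t * t ^ n := by ring
      · rw [tsum_mul_left, tsum_geometric_of_lt_one ht0.le ht1]; ring
    have h6 : Tendsto (fun t : ℝ => C * (t * (1 - t)⁻¹)) (𝓝[>] 0) (𝓝 (C * (0 * (1 - 0)⁻¹))) := by
      refine Tendsto.mono_left ?_ nhdsWithin_le_nhds
      refine Tendsto.const_mul _ (tendsto_id.mul ?_)
      exact ((continuous_const.sub continuous_id).tendsto 0).inv₀ (by norm_num)
    have h7 : ‖c m‖ ≤ C * (0 * (1 - 0)⁻¹) := by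
      refine ge_of_tendsto h6 ?_
      filter_upwards [Ioo_mem_nhdsGT (zero_lt_one (α := ℝ))] with t ht
      exact key t ht.1 ht.2
    have h8 : ‖c m‖ ≤ 0 := by simpa using h7
    exact norm_le_zero_iff.mp h8

/-- Uniqueness of power series on the bidisk. -/
lemma ev_inj (a : H2) (h0 : ∀ z ∈ bidisk, ev a z = 0) : a = 0 := by
  have hb : ∀ i, ‖a i‖ ≤ ‖a‖ := fun i => lp.norm_apply_le_norm (by norm_num) a i
  have h1 : ∀ s : ℝ, 0 < s → s < 1 → ∀ k, ∑' l : ℕ, a (k, l) * (s : ℂ) ^ l = 0 := by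
    intro s hs0 hs1
    have hg : Summable fun n : ℕ => s ^ n := summable_geometric_of_lt_one hs0.le hs1
    refine uniq1 (fun k => ∑' l : ℕ, a (k, l) * (s : ℂ) ^ l) (‖a‖ * (1 - s)⁻¹) ?_ ?_
    · intro k
      refine (tsum_of_norm_bounded (hg.mul_left ‖a‖).hasSum fun l => ?_).trans (le_of_eq ?_)
      · rw [norm_mul, norm_pow, Complex.norm_real, Real.norm_of_nonneg hs0.le]
        exact mul_le_mul_of_nonneg_right (hb _) (by positivity)
      · rw [tsum_mul_left, tsum_geometric_of_lt_one hs0.le hs1]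
    · intro t ht0 ht1
      have hz : (((t : ℂ), (s : ℂ)) : ℂ × ℂ) ∈ bidisk := by
        refine ⟨?_, ?_⟩
        · change ‖(t : ℂ)‖ < 1
          rw [Complex.norm_real, Real.norm_of_nonneg ht0.le]; exact ht1
        · change ‖(s : ℂ)‖ < 1
          rw [Complex.norm_real, Real.norm_of_nonneg hs0.le]; exact hs1
      have h2 := h0 _ hz
      rw [ev, (summable_ev hz a).tsum_prod] at h2
      rw [← h2]
      refine tsum_congr fun k => ?_
      rw [← tsum_mul_right]
      refine tsum_congr fun l => ?_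
      change a (k, l) * (s : ℂ) ^ l * (t : ℂ) ^ k = a (k, l) * ((t : ℂ) ^ k * (s : ℂ) ^ l)
      ring
  ext ⟨k, l⟩
  exact uniq1 (fun l => a (k, l)) ‖a‖ (fun l => hb _) (fun s hs0 hs1 => h1 s hs0 hs1 k) l

/-! ### Definitions of the problem -/

/-- `θ` is a rational inner function on the bidisk: it is a quotient of polynomials, the denominator
having no zero in `𝔻²`, and its radial boundary values have modulus one almost everywhere. -/
def IsRIF (θ : ℂ × ℂ → ℂ) : Prop :=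
  (∃ q p : MvPolynomial (Fin 2) ℂ, ∀ z ∈ bidisk, MvPolynomial.eval ![z.1, z.2] p ≠ 0 ∧
    θ z = MvPolynomial.eval ![z.1, z.2] q / MvPolynomial.eval ![z.1, z.2] p) ∧
  ∀ᵐ t : ℝ × ℝ, Tendsto
    (fun r : ℝ => ‖θ (r * Complex.exp (t.1 * Complex.I), r * Complex.exp (t.2 * Complex.I))‖)
    (𝓝[<] 1) (𝓝 1)

/-- `B` is, on the unit disk, a finite Blaschke product. -/
def IsBlaschke (B : ℂ → ℂ) : Prop :=
  ∃ c : ℂ, ‖c‖ = 1 ∧ ∃ (n : ℕ) (a : Fin n → ℂ), (∀ j, ‖a j‖ < 1) ∧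
    ∀ z : ℂ, ‖z‖ < 1 → B z = c * ∏ j, (z - a j) / (1 - conj (a j) * z)

/-- `θ = B₁(z₁) B₂(z₂)` with finite Blaschke products. -/
def Splits (θ : ℂ × ℂ → ℂ) : Prop :=
  ∃ B₁ B₂ : ℂ → ℂ, IsBlaschke B₁ ∧ IsBlaschke B₂ ∧ ∀ z ∈ bidisk, θ z = B₁ z.1 * B₂ z.2

/-- The subspace `θ H²(𝔻²)`. -/
noncomputable def thetaH2 (θ : ℂ × ℂ → ℂ) : Submodule ℂ H2 where
  carrier := {g | ∃ f : H2, ∀ z ∈ bidisk, ev g z = θ z * ev f z}
  add_mem' := by
    rintro a b ⟨f, hf⟩ ⟨g, hg⟩
    exact ⟨f + g, fun z hz => by rw [ev_add hz, ev_add hz, hf z hz, hg z hz]; ring⟩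
  zero_mem' := ⟨0, fun z hz => by rw [ev_zero hz, mul_zero]⟩
  smul_mem' := by
    rintro c a ⟨f, hf⟩
    exact ⟨c • f, fun z hz => by rw [ev_smul hz, ev_smul hz, hf z hz]; ring⟩

/-- `𝒦_θ = H²(𝔻²) ⊖ θ H²(𝔻²)`. -/
noncomputable def Kθ (θ : ℂ × ℂ → ℂ) : Submodule ℂ H2 := (thetaH2 θ)ᗮ

/-- `K = S₁ ⊕ S₂` is an orthogonal decomposition into closed subspaces with `A₁ S₁ ⊆ S₁` and
`A₂ S₂ ⊆ S₂`. -/
structure IsDecomp {E : Type*} [NormedAddCommGroup E] [InnerProductSpace ℂ E] (A₁ A₂ : E →L[ℂ] E)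
    (K S₁ S₂ : Submodule ℂ E) : Prop where
  closed₁ : IsClosed (S₁ : Set E)
  closed₂ : IsClosed (S₂ : Set E)
  ortho : S₁ ⟂ S₂
  sum : S₁ ⊔ S₂ = K
  inv₁ : ∀ x ∈ S₁, A₁ x ∈ S₁
  inv₂ : ∀ x ∈ S₂, A₂ x ∈ S₂

/-- `𝒦_θ = 𝒮₁ ⊕ 𝒮₂` is an Agler decomposition. -/
def IsAgler (θ : ℂ × ℂ → ℂ) (S₁ S₂ : Submodule ℂ H2) : Prop :=
  IsDecomp Sz1 Sz2 (Kθ θ) S₁ S₂

/-- The compression `P_𝒮 A |_𝒮`. -/
noncomputable def compression {E : Type*} [NormedAddCommGroup E] [InnerProductSpace ℂ E]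
    (S : Submodule ℂ E) [S.HasOrthogonalProjection] (A : E →L[ℂ] E) : S →L[ℂ] S :=
  S.orthogonalProjectionOnto ∘L A ∘L S.subtypeL

/-- The numerical range `{⟨T x, x⟩ : ‖x‖ = 1}` (in Mathlib the inner product is linear in the second
variable). -/
def numRange {E : Type*} [NormedAddCommGroup E] [InnerProductSpace ℂ E] (T : E →L[ℂ] E) : Set ℂ :=
  {w | ∃ x : E, ‖x‖ = 1 ∧ w = inner ℂ x (T x)}

/-- The rational inner function
`θ₀ = (25 z₁² z₂ + 12 z₁ - 12) / (25 - 12 z₁² z₂ + 12 z₁ z₂)` of the example. -/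
noncomputable def θ₀ (z : ℂ × ℂ) : ℂ :=
  (25 * z.1 ^ 2 * z.2 + 12 * z.1 - 12) / (25 - 12 * z.1 ^ 2 * z.2 + 12 * z.1 * z.2)

/-- `W(S¹_θ)`, where `S₂` is the second summand of the decomposition. -/
noncomputable def W1 (S₂ : Submodule ℂ H2) [S₂.HasOrthogonalProjection] : Set ℂ :=
  numRange (compression S₂ Sz1)

/-- `W(S²_θ)`, where `S₁` is the first summand of the decomposition. -/
noncomputable def W2 (S₁ : Submodule ℂ H2) [S₁.HasOrthogonalProjection] : Set ℂ :=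
  numRange (compression S₁ Sz2)

/-- Some Agler decomposition of `𝒦_θ` has a numerical range `W(S¹_θ)` that is not open. -/
def W1NotOpen (θ : ℂ × ℂ → ℂ) : Prop :=
  ∃ (S₁ S₂ : Submodule ℂ H2) (_ : S₁.HasOrthogonalProjection) (_ : S₂.HasOrthogonalProjection),
    IsAgler θ S₁ S₂ ∧ ¬ IsOpen (W1 S₂)

/-- (a) and (b) of Q1 for `θ` and the decomposition with summands `S₁`, `S₂`. -/
def Good (θ : ℂ × ℂ → ℂ) (S₁ S₂ : Submodule ℂ H2) [S₁.HasOrthogonalProjection]
    [S₂.HasOrthogonalProjection] : Prop :=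
  (¬ Splits θ → IsOpen (W1 S₂) ∧ IsOpen (W2 S₁)) ∧
    (Splits θ → IsClosed (W1 S₂) ∧ IsClosed (W2 S₁))

/-- The universal statement of Q1. -/
def Q1 : Prop :=
  ∀ θ : ℂ × ℂ → ℂ, IsRIF θ → ∀ (S₁ S₂ : Submodule ℂ H2) [S₁.HasOrthogonalProjection]
    [S₂.HasOrthogonalProjection], IsAgler θ S₁ S₂ → Good θ S₁ S₂

/-! ### The example -/

lemma den_ne {z : ℂ × ℂ} (h1 : ‖z.1‖ ≤ 1) (h2 : ‖z.2‖ ≤ 1) :
    25 - 12 * z.1 ^ 2 * z.2 + 12 * z.1 * z.2 ≠ 0 := by
  intro h
  have h3 : (25 : ℂ) = 12 * z.1 ^ 2 * z.2 - 12 * z.1 * z.2 := by linear_combination h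
  have h4 : ‖(25 : ℂ)‖ ≤ 24 := by
    rw [h3]
    refine (norm_sub_le _ _).trans ?_
    simp only [norm_mul, norm_pow]
    have e1 : ‖(12 : ℂ)‖ = 12 := by simp
    rw [e1]
    have h5 : ‖z.1‖ ^ 2 ≤ 1 := pow_le_one₀ (norm_nonneg _) h1
    have h6 : ‖z.1‖ ^ 2 * ‖z.2‖ ≤ 1 := mul_le_one₀ h5 (norm_nonneg _) h2
    have h7 : ‖z.1‖ * ‖z.2‖ ≤ 1 := mul_le_one₀ h1 (norm_nonneg _) h2
    nlinarith
  have e2 : ‖(25 : ℂ)‖ = 25 := by simp
  rw [e2] at h4
  linarith

lemma isRIF : IsRIF θ₀ := by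
  refine ⟨⟨MvPolynomial.C 25 * MvPolynomial.X 0 ^ 2 * MvPolynomial.X 1 +
    MvPolynomial.C 12 * MvPolynomial.X 0 - MvPolynomial.C 12,
    MvPolynomial.C 25 - MvPolynomial.C 12 * MvPolynomial.X 0 ^ 2 * MvPolynomial.X 1 +
    MvPolynomial.C 12 * MvPolynomial.X 0 * MvPolynomial.X 1, fun z hz => ?_⟩, ?_⟩
  · have e : MvPolynomial.eval ![z.1, z.2] (MvPolynomial.C 25 -
        MvPolynomial.C 12 * MvPolynomial.X 0 ^ 2 * MvPolynomial.X 1 +
        MvPolynomial.C 12 * MvPolynomial.X 0 * MvPolynomial.X 1) =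
        25 - 12 * z.1 ^ 2 * z.2 + 12 * z.1 * z.2 := by simp
    have e' : MvPolynomial.eval ![z.1, z.2] (MvPolynomial.C 25 * MvPolynomial.X 0 ^ 2 *
        MvPolynomial.X 1 + MvPolynomial.C 12 * MvPolynomial.X 0 - MvPolynomial.C 12) =
        25 * z.1 ^ 2 * z.2 + 12 * z.1 - 12 := by simp
    rw [e, e']
    exact ⟨den_ne hz.1.le hz.2.le, rfl⟩
  · refine Filter.Eventually.of_forall fun t => ?_
    set u := Complex.exp (t.1 * Complex.I) with hu
    set v := Complex.exp (t.2 * Complex.I) with hv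
    have hu1 : ‖u‖ = 1 := Complex.norm_exp_ofReal_mul_I _
    have hv1 : ‖v‖ = 1 := Complex.norm_exp_ofReal_mul_I _
    have hcont : ContinuousAt (fun r : ℝ => ‖θ₀ (r * u, r * v)‖) 1 := by
      refine ContinuousAt.norm ?_
      unfold θ₀
      refine ContinuousAt.div ?_ ?_ ?_
      · fun_prop
      · fun_prop
      · have := den_ne (z := (u, v)) hu1.le hv1.le
        simpa using this
    have hval : ‖θ₀ (((1 : ℝ) : ℂ) * u, ((1 : ℝ) : ℂ) * v)‖ = 1 := by
      have hcu : conj u * u = 1 := by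
        rw [← Complex.normSq_eq_conj_mul_self, Complex.normSq_eq_norm_sq, hu1]; simp
      have hcv : conj v * v = 1 := by
        rw [← Complex.normSq_eq_conj_mul_self, Complex.normSq_eq_norm_sq, hv1]; simp
      have e1 : (conj u * u) ^ 2 * (conj v * v) = 1 := by rw [hcu, hcv]; norm_num
      have e2 : (conj u * u) * (conj v * v) = 1 := by rw [hcu, hcv]; norm_num
      have h1 : (25 * u ^ 2 * v + 12 * u - 12) =
          u ^ 2 * v * conj (25 - 12 * u ^ 2 * v + 12 * u * v) := by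
        simp only [map_sub, map_add, map_mul, map_pow, map_ofNat]
        linear_combination 12 * e1 - 12 * u * e2
      have hd : 25 - 12 * u ^ 2 * v + 12 * u * v ≠ 0 := den_ne (z := (u, v)) hu1.le hv1.le
      rw [Complex.ofReal_one, one_mul, one_mul]
      change ‖(25 * u ^ 2 * v + 12 * u - 12) / (25 - 12 * u ^ 2 * v + 12 * u * v)‖ = 1
      rw [norm_div, h1, norm_mul, norm_mul, norm_pow, hu1, hv1, RCLike.norm_conj, one_pow, one_mul,
        one_mul]
      exact div_self (norm_ne_zero_iff.mpr hd)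
    have h2 := hcont.tendsto
    rw [hval] at h2
    exact h2.mono_left nhdsWithin_le_nhds

lemma not_splits : ¬ Splits θ₀ := by
  rintro ⟨B₁, B₂, -, -, h⟩
  have h00 := h (0, 0) (by simp [bidisk])
  have h10 := h (1 / 2, 0) (by constructor <;> norm_num)
  have h01 := h (0, 1 / 2) (by constructor <;> norm_num)
  have h11 := h (1 / 2, 1 / 2) (by constructor <;> norm_num)
  have key : θ₀ (0, 0) * θ₀ (1 / 2, 1 / 2) = θ₀ (1 / 2, 0) * θ₀ (0, 1 / 2) := by
    rw [h00, h10, h01, h11]; ring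
  norm_num [θ₀] at key

lemma ev_P (x : H2) {z : ℂ × ℂ} (hz : z ∈ bidisk) : ev (Pop Sz1 Sz2 x) z =
    (25 - 12 * z.1 ^ 2 * z.2 + 12 * z.1 * z.2) * ev x z := by
  rw [Pop_apply, ev_add hz, ev_sub hz, ev_smul hz, ev_smul hz, ev_smul hz, ev_Sz2, ev_Sz2, ev_Sz1,
    ev_Sz1]
  ring

lemma ev_Q (x : H2) {z : ℂ × ℂ} (hz : z ∈ bidisk) : ev (Qop Sz1 Sz2 x) z =
    (25 * z.1 ^ 2 * z.2 + 12 * z.1 - 12) * ev x z := by
  rw [Qop_apply, ev_sub hz, ev_add hz, ev_smul hz, ev_smul hz, ev_smul hz, ev_Sz2, ev_Sz1, ev_Sz1]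
  ring

lemma mem_K (R : H2 →L[ℂ] H2) (hR1 : ∀ x, Pop Sz1 Sz2 (R x) = x) (g : H2) :
    g ∈ Kθ θ₀ ↔ ∀ f, inner ℂ (Qop Sz1 Sz2 (R f)) g = 0 := by
  have hev : ∀ (f : H2), ∀ z ∈ bidisk, ev (Qop Sz1 Sz2 (R f)) z = θ₀ z * ev f z := by
    intro f z hz
    have h1 := ev_P (R f) hz
    rw [hR1] at h1
    have h2 := den_ne hz.1.le hz.2.le
    rw [ev_Q _ hz, h1, θ₀, div_mul_eq_mul_div, eq_div_iff h2]
    ring
  rw [Kθ, Submodule.mem_orthogonal]
  constructor
  · intro h f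
    exact h _ ⟨f, hev f⟩
  · rintro h u ⟨f, hf⟩
    have h1 : u = Qop Sz1 Sz2 (R f) := by
      rw [← sub_eq_zero]
      refine ev_inj _ fun z hz => ?_
      rw [ev_sub hz, hf z hz, hev f z hz, sub_self]
    rw [h1]
    exact h f

/-- The rational inner function `θ₀`, which does not split, has an Agler decomposition for which the
numerical range of `S¹_θ` is not open; hence the universal statement of Q1 is false. -/
theorem result : (IsRIF θ₀ ∧ ¬ Splits θ₀ ∧ W1NotOpen θ₀) ∧ ¬ Q1 := by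
  have hex : IsRIF θ₀ ∧ ¬ Splits θ₀ ∧ W1NotOpen θ₀ := by
    refine ⟨isRIF, not_splits, ?_⟩
    obtain ⟨R, hR1, hR2⟩ := exists_Pinv data
    have he : back (lp.single 2 ((0, 0) : ℕ × ℕ) (1 : ℂ)) = 0 := by
      ext ⟨k, l⟩
      rw [back_apply]
      simp [lp.single_apply]
    have heB : ∀ x, inner ℂ (Sz2 x) (lp.single 2 ((0, 0) : ℕ × ℕ) (1 : ℂ)) = 0 := by
      intro x
      rw [lp.inner_single_right, Sz2_zero, inner_zero_left]
    have he0 : (lp.single 2 ((0, 0) : ℕ × ℕ) (1 : ℂ) : H2) ≠ 0 := by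
      intro h
      have := congrArg (fun f : H2 => f (0, 0)) h
      simp [lp.single_apply] at this
    obtain ⟨L, hLc, hLK, hLB, hLA, hle, f, hfL, hf0, hf⟩ := Pool.Agent.Q35.Agler.main data R hR1 hR2
      (lp.single 2 ((0, 0) : ℕ × ℕ) (1 : ℂ)) he heB he0 (Kθ θ₀) (mem_K R hR1)
    have hKc : IsClosed ((Kθ θ₀ : Submodule ℂ H2) : Set H2) := Submodule.isClosed_orthogonal _
    have hSc : IsClosed ((Kθ θ₀ ⊓ Lᗮ : Submodule ℂ H2) : Set H2) :=
      hKc.inter (Submodule.isClosed_orthogonal _)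
    have i1 : CompleteSpace L := hLc.completeSpace_coe
    have i2 : CompleteSpace (Kθ θ₀ ⊓ Lᗮ : Submodule ℂ H2) := hSc.completeSpace_coe
    refine ⟨Kθ θ₀ ⊓ Lᗮ, L, inferInstance, inferInstance, ?_, ?_⟩
    · refine ⟨hSc, hLc, ?_, ?_, hLA, hLB⟩
      · rw [Submodule.isOrtho_iff_le]
        exact inf_le_right
      · apply le_antisymm
        · exact sup_le inf_le_left hLK
        · intro x hx
          obtain ⟨y, hy, w, hw, rfl⟩ := L.exists_add_mem_mem_orthogonal x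
          refine Submodule.mem_sup.mpr ⟨w, ⟨?_, hw⟩, y, hy, add_comm _ _⟩
          have := (Kθ θ₀).sub_mem hx (hLK hy)
          rwa [add_sub_cancel_left] at this
    · intro hopen
      have hval : ∀ x : L, inner ℂ x (compression L Sz1 x) = inner ℂ (x : H2) (Sz1 (x : H2)) := by
        intro x
        exact L.inner_orthogonalProjectionOnto_eq_of_mem_left x (Sz1 (x : H2))
      have hre : ∀ x : H2, (inner ℂ x (Sz1 x)).re = (inner ℂ (Sz1 x) x).re := by
        intro x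
        rw [← inner_conj_symm, Complex.conj_re]
      have hfn : 0 < ‖f‖ := norm_pos_iff.mpr hf0
      obtain ⟨x, hx⟩ : ∃ x : L, x = ((‖f‖⁻¹ : ℝ) : ℂ) • (⟨f, hfL⟩ : L) := ⟨_, rfl⟩
      have hxf : (x : H2) = ((‖f‖⁻¹ : ℝ) : ℂ) • f := by rw [hx]; rfl
      have hx1 : ‖x‖ = 1 := by
        change ‖(x : H2)‖ = 1
        rw [hxf, norm_smul, Complex.norm_real, norm_inv, norm_norm]
        exact inv_mul_cancel₀ hfn.ne'
      have hw : inner ℂ x (compression L Sz1 x) ∈ numRange (compression L Sz1) := ⟨x, hx1, rfl⟩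
      have hwre : (inner ℂ x (compression L Sz1 x)).re = 1 / 2 := by
        rw [hval, hre, hxf, map_smul, inner_smul_left, inner_smul_right, ← mul_assoc,
          Complex.conj_ofReal, ← Complex.ofReal_mul, Complex.re_ofReal_mul]
        have h5 : (inner ℂ (Sz1 f) f).re = ‖f‖ ^ 2 / 2 := by linarith
        rw [h5]
        field_simp
      have hub : ∀ w ∈ numRange (compression L Sz1), w.re ≤ 1 / 2 := by
        rintro w ⟨y, hy, rfl⟩
        rw [hval, hre]
        have h6 := hle (y : H2) y.2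
        have h9 : ‖(y : H2)‖ = 1 := hy
        rw [h9] at h6
        linarith
      obtain ⟨ε, hε, hball⟩ := Metric.isOpen_iff.mp hopen _ hw
      have h7 : inner ℂ x (compression L Sz1 x) + ((ε / 2 : ℝ) : ℂ) ∈
          numRange (compression L Sz1) := by
        refine hball ?_
        rw [Metric.mem_ball, dist_eq_norm, add_sub_cancel_left, Complex.norm_real,
          Real.norm_of_nonneg (by positivity)]
        linarith
      have h8 := hub _ h7
      rw [Complex.add_re, hwre, Complex.ofReal_re] at h8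
      linarith
  refine ⟨hex, ?_⟩
  intro hall
  obtain ⟨h1, h2, S₁, S₂, i1, i2, h3, h4⟩ := hex
  exact h4 ((hall θ₀ h1 S₁ S₂ h3).1 h2).1

end Pool.Agent.Results.MP_dfd7ce_an.NotOpen
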